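import Pool.Agent.H86.C.BcD

/-! Kernel computation of the base check, exponents 13 to 19 (about 15 s, 3.5 GB). The imports form two chains
to limit the memory. -/

namespace H86C

theorem base01 : chkO 13 0 1 = true ∧
  chkO 13 1 2 = true ∧
  chkO 14 0 7 = true ∧
  chkO 14 7 8 = true ∧
  chkO 15 0 14 = true ∧
  chkO 15 14 15 = true ∧
  chkO 16 0 21 = true ∧
  chkO 16 21 21 = true ∧
  chkO 17 0 24 = true ∧
  chkO 17 24 25 = true ∧
  chkO 18 0 26 = true ∧
  chkO 18 26 27 = true ∧
  chkO 19 0 26 = true ∧
  chkO 19 26 27 = true :=
  ⟨by decide +kernel,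
    by decide +kernel,
    by decide +kernel,
    by decide +kernel,
    by decide +kernel,
    by decide +kernel,
    by decide +kernel,
    by decide +kernel,
    by decide +kernel,
    by decide +kernel,
    by decide +kernel,
    by decide +kernel,
    by decide +kernel,
    by decide +kernel⟩

end H86C
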