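import Pool.Agent.H86.C.BcD
import Pool.Agent.H86.C.K.B06

/-! Kernel computation of the base check, exponents 49 to 53 (about 15 s, 3.5 GB). The imports form two chains
to limit the memory. -/

namespace H86C

theorem base08 : chkO 49 0 26 = true ∧
  chkO 49 26 27 = true ∧
  chkO 50 0 26 = true ∧
  chkO 50 26 27 = true ∧
  chkO 51 0 26 = true ∧
  chkO 51 26 27 = true ∧
  chkO 52 0 26 = true ∧
  chkO 52 26 27 = true ∧
  chkO 53 0 26 = true ∧
  chkO 53 26 27 = true :=
  ⟨by decide +kernel,
    by decide +kernel,
    by decide +kernel,
    by decide +kernel,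
    by decide +kernel,
    by decide +kernel,
    by decide +kernel,
    by decide +kernel,
    by decide +kernel,
    by decide +kernel⟩

end H86C
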