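import Pool.Agent.H86.C.BcD
import Pool.Agent.H86.C.K.B10

/-! Kernel computation of the base check, exponents 68 to 72 (about 15 s, 3.5 GB). The imports form two chains
to limit the memory. -/

namespace H86C

theorem base12 : chkO 68 0 26 = true ∧
  chkO 68 26 27 = true ∧
  chkO 69 0 26 = true ∧
  chkO 69 26 27 = true ∧
  chkO 70 0 26 = true ∧
  chkO 70 26 27 = true ∧
  chkO 71 0 26 = true ∧
  chkO 71 26 27 = true ∧
  chkO 72 0 26 = true ∧
  chkO 72 26 27 = true :=
  ⟨by decide +kernel,
    by decide +kernel,
    by decide +kernel,
    by decide +kernel,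
    by decide +kernel,
    by decide +kernel,
    by decide +kernel,
    by decide +kernel,
    by decide +kernel,
    by decide +kernel⟩

end H86C
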