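import Pool.Agent.H86.C.BcD
import Pool.Agent.H86.C.K.B14

/-! Kernel computation of the base check, exponents 87 to 93 (about 15 s, 3.5 GB). The imports form two chains
to limit the memory. -/

namespace H86C

theorem base16 : chkO 87 0 26 = true ∧
  chkO 87 26 27 = true ∧
  chkO 88 6 23 = true ∧
  chkO 88 29 24 = true ∧
  chkO 89 18 17 = true ∧
  chkO 89 35 18 = true ∧
  chkO 90 30 11 = true ∧
  chkO 90 41 12 = true ∧
  chkO 91 40 6 = true ∧
  chkO 91 46 7 = true ∧
  chkO 92 47 3 = true ∧
  chkO 92 50 3 = true ∧
  chkO 93 51 1 = true ∧
  chkO 93 52 1 = true :=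
  ⟨by decide +kernel,
    by decide +kernel,
    by decide +kernel,
    by decide +kernel,
    by decide +kernel,
    by decide +kernel,
    by decide +kernel,
    by decide +kernel,
    by decide +kernel,
    by decide +kernel,
    by decide +kernel,
    by decide +kernel,
    by decide +kernel,
    by decide +kernel⟩

end H86C
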