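import Pool.Agent.H86.C.BcD

/-! Kernel verification of the table of level 6 (about 3 s). -/

namespace H86C

theorem tab6 : chkT 0 243 = true ∧ chkT 1 243 = true ∧ chkT 2 243 = true ∧ chkT 3 243 = true ∧ chkT 4 243 = true ∧ chkT 5 243 = true ∧ chkT 6 243 = true ∧ chkT 7 243 = true ∧ chkT 8 243 = true ∧ chkT 9 243 = true ∧ chkT 10 243 = true ∧ chkT 11 243 = true ∧ chkT 12 243 = true ∧ chkT 13 243 = true ∧ chkT 14 243 = true ∧ chkT 15 243 = true :=
  ⟨by decide +kernel, by decide +kernel, by decide +kernel, by decide +kernel, by decide +kernel, by decide +kernel, by decide +kernel, by decide +kernel, by decide +kernel, by decide +kernel, by decide +kernel, by decide +kernel, by decide +kernel, by decide +kernel, by decide +kernel, by decide +kernel⟩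

end H86C
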