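import Pool.Agent.H86.C.DpD
import Pool.Agent.H86.C.K.B15
import Pool.Agent.H86.C.K.B16
import Pool.Agent.H86.V.K.C47
import Pool.Agent.H86.V.K.C48

/-! Kernel computation of the transfer recursion of the windows (about 17 s, 10 GB). The last four imports only
keep the large computations apart in time. -/

namespace H86C

theorem kerW : runW 16 112 10376108576284800833669186323120 = true := by decide +kernel

end H86C
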