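import Pool.Agent.H86.C.DpD
import Pool.Agent.H86.C.K.W

/-! Kernel computation of the transfer recursion of the tail (about 6 s, 5 GB). -/

namespace H86C

theorem kerD : runD 150 249 2409076183203953401533140 = true := by decide +kernel

end H86C
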